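import Pool.Agent.KS6_41.BW.A1
import Pool.Agent.KS6_41.BW.J
import Pool.Agent.KS6_41.BW.Sign

/-!
# The signs of the coefficients of the real powers of the infinite Borwein product

For which real `d` does each of the three components `A`, `B`, `C` of
`(q, q²; q³)_∞ ^ d = A(q³) - q B(q³) - q² C(q³)` have coefficients of one sign, and which signs?
The answer for all real `d`, together with the exact sign of every single coefficient for all `d`
between the two roots `(9 ± √73) / 2` of the third coefficient.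
-/

set_option autoImplicit false

namespace Pool.Agent.Results.MP_067a7d_co.SignChart

open PowerSeries
open scoped PowerSeries.WithPiTopology

/-- The infinite Borwein product `∏_{k ≥ 0} (1 - X^(3k+1)) (1 - X^(3k+2))` as a formal power series
over the reals (infinite product in the topology of coefficientwise convergence). -/
noncomputable def borwein : PowerSeries ℝ :=
  ∏' k : ℕ, (1 - (X : PowerSeries ℝ) ^ (3 * k + 1)) * (1 - X ^ (3 * k + 2))

/-- Its `d`-th power `exp (d log borwein)`, with the formal logarithm of a power series with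
constant term `1`. -/
noncomputable def cpow (d : ℝ) : PowerSeries ℝ :=
  (PowerSeries.exp ℝ).subst (d • PowerSeries.logOf borwein)

open Pool.Agent.KS6_41.BW in
theorem coeff_eq (d : ℝ) (n : ℕ) : coeff n (cpow d) = c d n :=
  Pool.Agent.KS6_41.BW.coeff_cpow d n

open Pool.Agent.KS6_41.BW in
theorem c3_nonneg {d : ℝ} (h1 : (9 - √73) / 2 ≤ d) (h2 : d ≤ (9 + √73) / 2) : 0 ≤ c d 3 := by
  have h3 := quad_nonpos h1 h2
  have h4 : 0 ≤ d := by linarith [sqrt73_lt]
  rw [c_3]
  have : 0 ≤ d * -(d ^ 2 - 9 * d + 2) := mul_nonneg h4 (by linarith)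
  linarith

open Pool.Agent.KS6_41.BW in
theorem res0_nonneg {d : ℝ} (h1 : (9 - √73) / 2 ≤ d) (h2 : d ≤ (9 + √73) / 2) {n : ℕ}
    (hn : n % 3 = 0) : 0 ≤ c d n := by
  by_cases h3 : n = 3
  · rw [h3]; exact c3_nonneg h1 h2
  · exact ((good_all h1 h2 h3 (by omega)).1 hn).le

open Pool.Agent.KS6_41.BW in
theorem res1_neg {d : ℝ} (h1 : (9 - √73) / 2 ≤ d) (h2 : d ≤ (9 + √73) / 2) {n : ℕ}
    (hn : n % 3 = 1) : c d n < 0 :=
  (good_all h1 h2 (by omega) (by omega)).2.1 hn

open Pool.Agent.KS6_41.BW in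
theorem res2_nonpos {d : ℝ} (h1 : (9 - √73) / 2 ≤ d) (h2 : d ≤ 3) (h3 : d ≤ 1 ∨ 2 ≤ d) {n : ℕ}
    (hn : n % 3 = 2) : c d n ≤ 0 := by
  have s2 := lt_sqrt73
  have s1 := sqrt73_lt
  rcases h2.eq_or_lt with rfl | h2'
  · rw [c_three n hn]
  by_cases h5 : n = 5
  · rw [h5, c_5]
    have a1 : 0 ≤ (d - 1) * (d - 2) := by
      rcases h3 with h | h <;> nlinarith
    have a2 : 0 ≤ (3 - d) * (24 - d) := mul_nonneg (by linarith) (by linarith)
    have a3 := mul_nonneg (mul_nonneg (by linarith : 0 ≤ d) a1) a2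
    have a4 : d * (d - 1) * (d - 2) * (d - 3) * (d - 24) =
        d * ((d - 1) * (d - 2)) * ((3 - d) * (24 - d)) := by ring
    rw [a4]
    linarith
  · exact (((good_all h1 (by linarith) (by omega) h5).2.2 hn).1 h2').le

open Pool.Agent.KS6_41.BW in
theorem res2_nonneg {d : ℝ} (h1 : 3 ≤ d) (h2 : d ≤ (9 + √73) / 2) {n : ℕ}
    (hn : n % 3 = 2) : 0 ≤ c d n := by
  have s2 := lt_sqrt73
  have s1 := sqrt73_lt
  rcases h1.eq_or_lt with rfl | h1'
  · rw [c_three n hn]
  by_cases h5 : n = 5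
  · rw [h5, c_5]
    have a1 : 0 ≤ (d - 1) * (d - 2) := mul_nonneg (by linarith) (by linarith)
    have a2 : 0 ≤ (d - 3) * (24 - d) := mul_nonneg (by linarith) (by linarith)
    have a3 := mul_nonneg (mul_nonneg (by linarith : 0 ≤ d) a1) a2
    have a4 : d * (d - 1) * (d - 2) * (d - 3) * (d - 24) =
        -(d * ((d - 1) * (d - 2)) * ((d - 3) * (24 - d))) := by ring
    rw [a4]
    linarith
  · exact (((good_all (by linarith) h2 (by omega) h5).2.2 hn).2 h1').le

open Pool.Agent.KS6_41.BW in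
/-- the consequences of the signs of the coefficients `c 3`, `c 2` and `c 5` -/
theorem range_of {d : ℝ} (hd : 0 < d) (h3 : 0 ≤ c d 3) :
    (9 - √73) / 2 ≤ d ∧ d ≤ (9 + √73) / 2 := by
  apply of_quad_nonpos
  rw [c_3] at h3
  by_contra h
  push Not at h
  have := mul_pos hd h
  linarith

open Pool.Agent.KS6_41.BW in
theorem c5_pos {d : ℝ} (h1 : 1 < d) (h2 : d < 2) : 0 < c d 5 := by
  rw [c_5]
  have a1 : 0 < (d - 1) * (2 - d) := mul_pos (by linarith) (by linarith)
  have a2 : 0 < (3 - d) * (24 - d) := mul_pos (by linarith) (by linarith)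
  have a3 := mul_pos (mul_pos (by linarith : 0 < d) a1) a2
  have a4 : d * (d - 1) * (d - 2) * (d - 3) * (d - 24) =
      -(d * ((d - 1) * (2 - d)) * ((3 - d) * (24 - d))) := by ring
  rw [a4]
  linarith

open Pool.Agent.KS6_41.BW in
theorem zero_signs (n : ℕ) (hn : n ≠ 0) : c 0 n = 0 := by
  obtain ⟨m, rfl⟩ := Nat.exists_eq_succ_of_ne_zero hn
  exact c_zero_succ m

open Pool.Agent.KS6_41.BW in
theorem sign_res2 {d : ℝ} (h1 : (9 - √73) / 2 ≤ d) (h2 : d ≤ (9 + √73) / 2) {n : ℕ}
    (hn : n % 3 = 2) (h5 : n ≠ 5) : SignType.sign (c d n) = SignType.sign (d - 3) := by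
  have hg := (good_all h1 h2 (by omega) h5).2.2 hn
  rcases lt_trichotomy d 3 with h | rfl | h
  · rw [sign_neg (hg.1 h), sign_neg (by linarith)]
  · rw [c_three n hn]; simp
  · rw [sign_pos (hg.2 h), sign_pos (by linarith)]

open Pool.Agent.KS6_41.BW in
/-- **Signs of the real powers of the infinite Borwein product.** -/
theorem result :
    -- the infinite product converges, and has constant term `1`
    (HasProd (fun k : ℕ => (1 - (X : PowerSeries ℝ) ^ (3 * k + 1)) * (1 - X ^ (3 * k + 2)))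
      borwein ∧ constantCoeff borwein = 1) ∧
    -- the sign pattern of Q1 holds exactly for `d` in `D`, and for `d = 0`
    (∀ d : ℝ, (∀ m : ℕ, 0 ≤ coeff (3 * m) (cpow d) ∧ coeff (3 * m + 1) (cpow d) ≤ 0 ∧
        coeff (3 * m + 2) (cpow d) ≤ 0) ↔
      d = 0 ∨ d ∈ Set.Icc ((9 - √73) / 2) 1 ∨ d ∈ Set.Icc 2 3) ∧
    -- all `d` for which each of the three components has coefficients of one sign
    (∀ d : ℝ, (∀ i < 3, (∀ m : ℕ, 0 ≤ coeff (3 * m + i) (cpow d)) ∨
        (∀ m : ℕ, coeff (3 * m + i) (cpow d) ≤ 0)) ↔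
      d ≤ 0 ∨ d ∈ Set.Icc ((9 - √73) / 2) 1 ∨ d ∈ Set.Icc 2 ((9 + √73) / 2)) ∧
    -- the sign of every coefficient, for every `d` between the two roots
    (∀ d ∈ Set.Icc ((9 - √73) / 2) ((9 + √73) / 2), ∀ n : ℕ,
      (n % 3 = 0 → n ≠ 3 → 0 < coeff n (cpow d)) ∧
      (n % 3 = 1 → coeff n (cpow d) < 0) ∧
      (n % 3 = 2 → n ≠ 5 → SignType.sign (coeff n (cpow d)) = SignType.sign (d - 3))) ∧
    (∀ d : ℝ, coeff 3 (cpow d) = -(d * (d ^ 2 - 9 * d + 2)) / 6 ∧
      coeff 5 (cpow d) = -(d * (d - 1) * (d - 2) * (d - 3) * (d - 24)) / 120) := by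
  have s1 := sqrt73_lt
  have s2 := lt_sqrt73
  simp only [coeff_eq]
  refine ⟨⟨hasProd_borwein, constantCoeff_borwein⟩, fun d => ⟨fun h => ?_, fun h => ?_⟩,
    fun d => ⟨fun h => ?_, fun h => ?_⟩, fun d hd n => ⟨fun h0 h3 => ?_, fun h1 => ?_,
      fun h2 h5 => sign_res2 hd.1 hd.2 h2 h5⟩, fun d => ⟨c_3 d, c_5 d⟩⟩
  · -- necessity for the pattern of Q1
    have a1 := (h 0).2.1
    rw [show 3 * 0 + 1 = 1 from rfl, c_1] at a1
    rcases (by linarith : 0 ≤ d).eq_or_lt with h0 | h0
    · exact Or.inl h0.symm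
    right
    obtain ⟨b1, b2⟩ := range_of h0 (h 1).1
    have a2 := (h 0).2.2
    rw [show 3 * 0 + 2 = 2 from rfl, c_2] at a2
    have a3 : d ≤ 3 := by
      by_contra h3
      push Not at h3
      have := mul_pos h0 (by linarith : 0 < d - 3)
      linarith
    by_cases h4 : d ≤ 1
    · exact Or.inl ⟨b1, h4⟩
    by_cases h5 : 2 ≤ d
    · exact Or.inr ⟨h5, a3⟩
    push Not at h4 h5
    have := c5_pos h4 h5
    have a5 := (h 1).2.2
    rw [show 3 * 1 + 2 = 5 from rfl] at a5
    linarith
  · intro m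
    rcases h with rfl | h | h
    · refine ⟨?_, (zero_signs _ (by omega)).le, (zero_signs _ (by omega)).le⟩
      by_cases hm : m = 0
      · rw [hm, mul_zero, c_0]; norm_num
      · exact (zero_signs _ (by omega)).ge
    · have h2 : d ≤ (9 + √73) / 2 := by linarith [h.2]
      exact ⟨res0_nonneg h.1 h2 (by omega), (res1_neg h.1 h2 (by omega)).le,
        res2_nonpos h.1 (by linarith [h.2]) (Or.inl h.2) (by omega)⟩
    · have h1 : (9 - √73) / 2 ≤ d := by linarith [h.1]
      have h2 : d ≤ (9 + √73) / 2 := by linarith [h.2]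
      exact ⟨res0_nonneg h1 h2 (by omega), (res1_neg h1 h2 (by omega)).le,
        res2_nonpos h1 h.2 (Or.inr h.1) (by omega)⟩
  · -- necessity for one sign
    by_cases h0 : d ≤ 0
    · exact Or.inl h0
    push Not at h0
    right
    have a0 : ∀ m : ℕ, 0 ≤ c d (3 * m + 0) := by
      rcases h 0 (by norm_num) with h | h
      · exact h
      · have := h 0
        rw [show 3 * 0 + 0 = 0 from rfl, c_0] at this
        norm_num at this
    obtain ⟨b1, b2⟩ := range_of h0 (a0 1)
    by_cases h4 : d ≤ 1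
    · exact Or.inl ⟨b1, h4⟩
    by_cases h5 : 2 ≤ d
    · exact Or.inr ⟨h5, b2⟩
    push Not at h4 h5
    have e5 := c5_pos h4 h5
    have e2 : c d 2 < 0 := by
      rw [c_2]
      have := mul_pos h0 (by linarith : 0 < 3 - d)
      linarith
    rcases h 2 (by norm_num) with h | h
    · have := h 0
      rw [show 3 * 0 + 2 = 2 from rfl] at this
      linarith
    · have := h 1
      rw [show 3 * 1 + 2 = 5 from rfl] at this
      linarith
  · intro i hi
    rcases h with h | h | h
    · left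
      intro m
      rcases h.eq_or_lt with rfl | h
      · by_cases hm : 3 * m + i = 0
        · rw [hm, c_0]; norm_num
        · exact (zero_signs _ hm).ge
      · exact (c_pos_of_neg h _).le
    · have h2 : d ≤ (9 + √73) / 2 := by linarith [h.2]
      interval_cases i
      · exact Or.inl fun m => res0_nonneg h.1 h2 (by omega)
      · exact Or.inr fun m => (res1_neg h.1 h2 (by omega)).le
      · exact Or.inr fun m => res2_nonpos h.1 (by linarith [h.2]) (Or.inl h.2) (by omega)
    · have h1 : (9 - √73) / 2 ≤ d := by linarith [h.1]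
      interval_cases i
      · exact Or.inl fun m => res0_nonneg h1 h.2 (by omega)
      · exact Or.inr fun m => (res1_neg h1 h.2 (by omega)).le
      · rcases le_total d 3 with h3 | h3
        · exact Or.inr fun m => res2_nonpos h1 h3 (Or.inr h.1) (by omega)
        · exact Or.inl fun m => res2_nonneg h3 h.2 (by omega)
  · exact (good_all hd.1 hd.2 h3 (by omega)).1 h0
  · exact res1_neg hd.1 hd.2 h1

end Pool.Agent.Results.MP_067a7d_co.SignChart
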